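import Pool.Agent.L7h9.CP.Unr
import Pool.Agent.L7h9.CP.Tor
import Pool.Agent.L7h9.VA.Gen
set_option autoImplicit false

/-!
Circuits of functions on arbitrary affine varieties. Let `V = Spec A` be an arbitrary affine scheme
of finite type over a number field, `g_1, ..., g_m` functions on `V`, `F_e` monic integral
polynomials and `W_e` integral Laurent polynomials in one variable. A proper circuit is a set of
`n + 1 ≥ 3` of the functions `g_e`, any `n` of which are algebraically independent, with a linear
relation whose coefficients are roots of unity. Every proper circuit gives a class in Milnor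
`K`-theory of degree `n + 1` on the covering `W_e(z_e) = λ ^ deg F_e F_e(g_e)` of `V`, which is
unramified everywhere for every algebraic integer `λ`, and for all but finitely many algebraic
integers `λ` the regulators of the classes of different proper circuits are independent.
-/

namespace Pool.Agent.Results.MP_4a177b_nt.CircuitsOnVarieties

open Pool.Agent.TH826.MK (KQ Unramified Torus)

open Pool.Agent.N65.TL (LP)

open Pool.Agent.L7h9.CP (Cov XR xbase xz sym)

section defs

variable {K A : Type*} [Field K] [CommRing A] {m n N : ℕ}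

/-- The `n + 1` different indices `D_0, ..., D_n` form a proper circuit: there is a relation
`∑ c_i g_(D i) = 0` whose coefficients are roots of unity; any `n` of the `n + 1` functions
`g_(D i)` are algebraically independent over `K`; and it is not the case that all the polynomials
`F_(D i)` are powers `(X - β_i) ^ deg` of linear polynomials with `∑ c_i β_i = 0`. -/
def ProperCircuit [Algebra K A] (C : Cov K A m) (D : Fin (n + 1) → Fin m) : Prop :=
  Function.Injective D ∧ ∃ c : Fin (n + 1) → K, (∀ i, ∃ k : ℕ, k ≠ 0 ∧ c i ^ k = 1) ∧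
    ∑ i, algebraMap K A (c i) * C.g (D i) = 0 ∧
    (∀ i : Fin (n + 1), AlgebraicIndependent K fun j : Fin n => C.g (D (i.succAbove j))) ∧
    ¬ ∃ β : Fin (n + 1) → K, (∀ i, C.F (D i) =
      (Polynomial.X - Polynomial.C (β i)) ^ (C.F (D i)).natDegree) ∧ ∑ i, c i * β i = 0

/-- The circuits `D_1, ..., D_N` have different underlying sets. -/
def Different (D : Fin N → Fin (n + 1) → Fin m) : Prop :=
  ∀ k k', Set.range (D k) = Set.range (D k') → k = k'

/-- The symbols `{z_e : e ∈ D_k}` have unramified images in `K_{n+1} ⊗ ℚ` of all fields `L` with a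
homomorphism from the coordinate ring to `L` (for example of the function fields of the
components). -/
def UnramifiedCircuits.{u, w, v} {K : Type u} {A : Type w} [Field K] [CommRing A] {m n N : ℕ}
    (C : Cov K A m) (ι : K →+* A) (lam : K) (D : Fin N → Fin (n + 1) → Fin m) : Prop :=
  ∀ (L : Type v) [Field L] (f : XR C ι lam →+* L) (k : Fin N),
    KQ.map (n + 1) f (sym C ι lam (D k)) ∈ Unramified L (n + 1)

/-- The value of `z W'(z)`. -/
noncomputable def deriv (σ : K →+* ℂ) (W : LP K 1) (z : ℂ) : ℂ :=
  ∑ p ∈ W.coeff.support, σ (W.coeff p) * ((p 0 : ℂ) * z ^ p 0)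

/-- There are `N` tori of dimension `n` in the complex points over `σ` of the covering, at whose
points the covering is étale over the base (`W_e'(z_e) ≠ 0`), such that the determinant of the
regulators of the `N` symbols on the `N` tori does not vanish. -/
def IndependentRegulators (σ : K →+* ℂ) (C : Cov K A m) (ι : K →+* A) (lam : K)
    (D : Fin N → Fin (n + 1) → Fin m) : Prop :=
  ∃ Γ : Fin N → Torus (XR C ι lam) n,
    (∀ t θ (x : K), (Γ t).e θ (xbase C ι lam (ι x)) = σ x) ∧
    (∀ t θ e, deriv σ (C.W e) ((Γ t).e θ (xz C ι lam e : XR C ι lam)) ≠ 0) ∧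
    (Matrix.of fun t k => (Γ t).reg (sym C ι lam (D k))).det ≠ 0

end defs

theorem finite_bounded (K : Type*) [Field K] [NumberField K] (C : (K →+* ℂ) → ℝ) :
    {lam : K | IsIntegral ℤ lam ∧ ∀ σ : K →+* ℂ, ‖σ lam‖ < C σ}.Finite := by
  classical
  obtain ⟨B, hB⟩ : ∃ B : ℝ, ∀ σ : K →+* ℂ, C σ ≤ B := by
    refine ⟨∑ σ : K →+* ℂ, |C σ|, fun σ => (le_abs_self _).trans ?_⟩
    exact Finset.single_le_sum (f := fun σ : K →+* ℂ => |C σ|) (fun _ _ => abs_nonneg _)
      (Finset.mem_univ σ)
  refine (NumberField.Embeddings.finite_of_norm_le K ℂ B).subset ?_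
  rintro lam ⟨h1, h2⟩
  exact ⟨h1, fun σ => (h2 σ).le.trans (hB σ)⟩

/-- CIRCUITS ON VARIETIES. Let `K` be a number field and `A` an arbitrary finitely generated
`K`-algebra. For `e = 1, ..., m` let `g_e` be an element of `A`, `F_e` a monic polynomial of positive
degree with coefficients in the ring of integers of `K` for which `f_e = F_e(g_e)` is a unit of `A`,
and `W_e` a Laurent polynomial in one variable with coefficients in the ring of integers, with terms
of positive and of negative degree, whose two extreme coefficients are roots of unity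
(`Cov.Admissible`). Let `n ≥ 2`, and let `D_1, ..., D_N` be different proper circuits with `n + 1`
elements (`ProperCircuit`).

(1) For every algebraic integer `λ` of `K` the `N` symbols `{z_e : e ∈ D_k}` on the covering
`W_e(z_e) = λ ^ deg F_e F_e(g_e)`, `e = 1, ..., m`, of the variety `Spec A` are unramified (at all
discrete valuations of all fields with a homomorphism from the coordinate ring).

(2) For every complex embedding `σ` of `K` there is a constant `B` such that for all `λ ∈ K` with
`|σ λ| ≥ B` the regulators of the `N` symbols on `N` tori of dimension `n` in the complex points of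
the covering over `σ` are independent.

(3) For all but finitely many algebraic integers `λ` of `K` the regulators of the `N` unramified
symbols are independent for some `σ`. -/
theorem result.{u, w, v} (K : Type u) [Field K] [NumberField K] (A : Type w) [CommRing A]
    [Algebra K A] [Algebra.FiniteType K A] (m n N : ℕ) (hn : 2 ≤ n) (C : Cov K A m)
    (hC : C.Admissible (algebraMap K A)) (D : Fin N → Fin (n + 1) → Fin m)
    (hD : ∀ k, ProperCircuit C (D k)) (hD' : Different D) :
    (∀ lam : K, IsIntegral ℤ lam →
      UnramifiedCircuits.{u, w, v} C (algebraMap K A) lam D) ∧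
    (∀ σ : K →+* ℂ, ∃ B : ℝ, ∀ lam : K, B ≤ ‖σ lam‖ →
      IndependentRegulators σ C (algebraMap K A) lam D) ∧
    {lam : K | IsIntegral ℤ lam ∧
      ¬ ∃ σ : K →+* ℂ, IndependentRegulators σ C (algebraMap K A) lam D}.Finite := by
  obtain ⟨n', rfl⟩ : ∃ n', n = n' + 2 := ⟨n - 2, by omega⟩
  have h2 : ∀ σ : K →+* ℂ, ∃ B : ℝ, ∀ lam : K, B ≤ ‖σ lam‖ →
      IndependentRegulators σ C (algebraMap K A) lam D := by
    intro σ
    have hper : ∀ k, ∃ γ : Torus A (n' + 2),
        (∀ θ (x : K), γ.e θ (algebraMap K A x) = σ x) ∧
          γ.reg (Pool.Agent.L7h9.CP.lead C (algebraMap K A) (D k)) ≠ 0 := by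
      intro k
      obtain ⟨-, c, hc, hrel, hind, hND⟩ := hD k
      refine Pool.Agent.L7h9.VA.exists_period σ hC (fun i h0 => ?_) hrel hind hND
      obtain ⟨j, hj, hj'⟩ := hc i
      rw [h0, zero_pow hj] at hj'
      exact zero_ne_one hj'
    choose γ hγ hne using hper
    obtain ⟨B, -, hB⟩ := Pool.Agent.L7h9.CP.exists_cov_tori σ hC D (fun k => (hD k).1) hD' γ hγ hne
    refine ⟨B, fun lam hl => ?_⟩
    obtain ⟨Γ, a1, a2, a3⟩ := hB lam hl
    refine ⟨Γ, a1, fun t θ e => ?_, a3⟩
    obtain ⟨i, hi⟩ := a2 t θ e
    have h3 : Pool.Agent.L7h9.LT.lder σ (C.W e)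
        (fun _ : Fin 1 => (Γ t).e θ (xz C (algebraMap K A) lam e :
          XR C (algebraMap K A) lam)) i =
        deriv σ (C.W e) ((Γ t).e θ (xz C (algebraMap K A) lam e :
          XR C (algebraMap K A) lam)) := by
      unfold Pool.Agent.L7h9.LT.lder deriv
      refine Finset.sum_congr rfl fun p _ => ?_
      rw [Fin.prod_univ_one, Fin.eq_zero i]
    rw [← h3]
    exact hi
  refine ⟨fun lam hlam L _ F k => ?_, h2, ?_⟩
  · obtain ⟨hinj, c, hc, hrel, -, -⟩ := hD k
    exact Pool.Agent.L7h9.CP.sym_unramified hC hlam ⟨hinj, c, hc, hrel⟩ F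
  · choose B hB using h2
    refine (finite_bounded K B).subset ?_
    rintro lam ⟨hl1, hl2⟩
    refine ⟨hl1, fun σ => ?_⟩
    by_contra hcon
    push Not at hcon
    exact hl2 ⟨σ, hB σ lam hcon⟩

end Pool.Agent.Results.MP_4a177b_nt.CircuitsOnVarieties
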