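import Pool.Agent.L7h9.SU.Cov2
set_option autoImplicit false

/-!
Integral classes with independent regulators on fibrations over ARBITRARY function fields: let
`p(x, y) = 0` be any covering of the affine space of dimension `n + 1` over a number field `K` (every
finitely generated field of transcendence degree `n + 1` over `K` is the function field of such a
covering). For all but finitely many algebraic integers `λ` the hypersurface
`W(z_0, ..., z_s) = λ G(x, y) g(x) ∏_j ∏_i (x_j - φ_{j,i}(x_{j+1}, ..., x_n))` over the covering has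
`∏_j r_j` classes in `K_{n+s+2}^{(n+s+2)}` which are unramified at all discrete valuations and have
independent regulators.
-/

namespace Pool.Agent.Results.MP_4a177b_nt.FibrationsOverFunctionFields

open scoped Polynomial

open Pool.Agent.TH826.MK (KQ symb Unramified Torus)

open Pool.Agent.N65.TL (LP Interior Tame)

open Pool.Agent.Y797.TW (Tower)

open Pool.Agent.L7h9.LT (lval lder)

open Pool.Agent.L7h9.SU (SRing sbase sz cat CovRing covConst covF covU)

section defs

variable {K : Type*} [Field K] {s n : ℕ}

/-- The coefficients are polynomials in `x_0, ..., x_n` with integral coefficients. -/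
def IntegralCoeffs (q : (MvPolynomial (Fin (n + 1)) K)[X]) : Prop :=
  ∀ i m, IsIntegral ℤ ((q.coeff i).coeff m)

/-- The polynomial over the field `K(x_0, ..., x_n)`. -/
noncomputable def generic (q : (MvPolynomial (Fin (n + 1)) K)[X]) :
    (FractionRing (MvPolynomial (Fin (n + 1)) K))[X] := q.map (algebraMap _ _)

/-- `p(x, y)` is monic in `y` of positive degree and without multiple factors over
`K(x_0, ..., x_n)`, `G(x, y)` has no common factor with `p` over `K(x_0, ..., x_n)`, and all
coefficients are integral. -/
def Covering (p G : (MvPolynomial (Fin (n + 1)) K)[X]) : Prop :=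
  p.Monic ∧ 0 < p.natDegree ∧ IntegralCoeffs p ∧ IntegralCoeffs G ∧ (generic p).Separable ∧
    IsCoprime (generic p) (generic G)

/-- The function `λ Φ` on the open part `Φ ≠ 0`, `∂p/∂y ≠ 0` of the covering `p(x, y) = 0`, where
`Φ = G(x, y) g(x) ∏_j ∏_i (x_j - φ_{j,i})`. -/
noncomputable def par (A : Tower K n) (p G : (MvPolynomial (Fin (n + 1)) K)[X]) (lam : K) :
    CovRing A p G := covConst A p G lam * covF A p G

/-- The coordinate ring of the hypersurface `W(z) = λ Φ`, `z_i ≠ 0`, over the open part. -/
abbrev Total (W : LP K (s + 1)) (A : Tower K n) (p G : (MvPolynomial (Fin (n + 1)) K)[X])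
    (lam : K) : Type _ := SRing (covConst A p G) W (par A p G lam)

/-- The class `{u_0, ..., u_n, z_0, ..., z_s}`, `u_j = (x_j - φ_{j,k_j + 1}) / (x_j - φ_{j,0})`. -/
noncomputable def cls (W : LP K (s + 1)) (A : Tower K n)
    (p G : (MvPolynomial (Fin (n + 1)) K)[X]) (lam : K) (k : ∀ j, Fin (A.r j)) :
    KQ (Total W A p G lam) (n + 1 + (s + 1)) :=
  cat (sbase _ W (par A p G lam)) (sz _ W (par A p G lam)) (symb (covU A p G k))

/-- The classes have unramified images in `K_{n+s+2} ⊗ ℚ` of all fields `L` with a homomorphism from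
the coordinate ring to `L` (for example of the function fields of the components). -/
def UnramifiedClasses.{u, v} {K : Type u} [Field K] {s n : ℕ} (W : LP K (s + 1)) (A : Tower K n)
    (p G : (MvPolynomial (Fin (n + 1)) K)[X]) (lam : K) : Prop :=
  ∀ (L : Type v) [Field L] (F : Total W A p G lam →+* L) (k : ∀ j, Fin (A.r j)),
    KQ.map _ F (cls W A p G lam k) ∈ Unramified L _

/-- The torus lies in the complex points over `σ`. -/
def Over (σ : K →+* ℂ) (W : LP K (s + 1)) (A : Tower K n)
    (p G : (MvPolynomial (Fin (n + 1)) K)[X]) (lam : K)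
    (Γ : Torus (Total W A p G lam) (n + 1 + s)) : Prop :=
  ∀ θ (x : K), Γ.e θ (sbase _ W (par A p G lam) (covConst A p G x)) = σ x

/-- At all points of the torus some derivative of `W(z)` with respect to `z_0, ..., z_s` is not zero
(so that the hypersurface is smooth there). -/
def Smooth (σ : K →+* ℂ) (W : LP K (s + 1)) (A : Tower K n)
    (p G : (MvPolynomial (Fin (n + 1)) K)[X]) (lam : K)
    (Γ : Torus (Total W A p G lam) (n + 1 + s)) : Prop :=
  ∀ θ, ∃ i, lder σ W (fun j => Γ.e θ (sz (covConst A p G) W (par A p G lam) j).1) i ≠ 0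

/-- The matrix of the regulators of the classes on the tori `Γ_t`. -/
noncomputable def regMat (W : LP K (s + 1)) (A : Tower K n)
    (p G : (MvPolynomial (Fin (n + 1)) K)[X]) (lam : K)
    (Γ : (∀ j, Fin (A.r j)) → Torus (Total W A p G lam) (n + 1 + s)) :
    Matrix (∀ j, Fin (A.r j)) (∀ j, Fin (A.r j)) ℝ :=
  Matrix.of fun t k => (Γ t).reg (cls W A p G lam k)

/-- There are `∏_j r_j` tori of dimension `n + 1 + s` in the complex points (over `σ`) of the
hypersurface, in the locus where it is smooth, such that the determinant of the regulators of the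
`∏_j r_j` classes on the tori does not vanish. -/
def IndependentRegulators (σ : K →+* ℂ) (W : LP K (s + 1)) (A : Tower K n)
    (p G : (MvPolynomial (Fin (n + 1)) K)[X]) (lam : K) : Prop :=
  ∃ Γ : (∀ j, Fin (A.r j)) → Torus (Total W A p G lam) (n + 1 + s),
    (∀ t, Over σ W A p G lam (Γ t)) ∧ (∀ t, Smooth σ W A p G lam (Γ t)) ∧
    (regMat W A p G lam Γ).det ≠ 0

end defs

theorem finite_bounded (K : Type*) [Field K] [NumberField K] (C : (K →+* ℂ) → ℝ) :
    {lam : K | IsIntegral ℤ lam ∧ ∀ σ : K →+* ℂ, ‖σ lam‖ < C σ}.Finite := by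
  classical
  obtain ⟨B, hB⟩ : ∃ B : ℝ, ∀ σ : K →+* ℂ, C σ ≤ B := by
    refine ⟨∑ σ : K →+* ℂ, |C σ|, fun σ => (le_abs_self _).trans ?_⟩
    exact Finset.single_le_sum (f := fun σ : K →+* ℂ => |C σ|) (fun _ _ => abs_nonneg _)
      (Finset.mem_univ σ)
  refine (NumberField.Embeddings.finite_of_norm_le K ℂ B).subset ?_
  rintro lam ⟨h1, h2⟩
  exact ⟨h1, fun σ => (h2 σ).le.trans (hB σ)⟩

/-- Let `K` be a number field, and let `W` be a Laurent polynomial in `z_0, ..., z_s` over `K` such
that the origin is an interior point of the Newton polytope (`Interior`) and `W` divides, with an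
integral quotient, a product of polynomials of simplex type (`Tame`). For `0 ≤ j ≤ n` let
`φ_{j,0}, ..., φ_{j,r_j}` be different polynomials in `x_{j+1}, ..., x_n` with integral coefficients,
and let `g ≠ 0` be a polynomial in `x_0, ..., x_n` with integral coefficients (`Tower`).

Let `p(x, y)` be ANY monic polynomial in `y` of positive degree without multiple factors, whose
coefficients are polynomials in `x_0, ..., x_n` with integral coefficients, and let `G(x, y)` be a
polynomial with integral coefficients without common factor with `p` (over `K(x_0, ..., x_n)`). So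
`p(x, y) = 0` is an arbitrary finite covering of the affine space. Put
`Φ = G(x, y) g(x) ∏_j ∏_i (x_j - φ_{j,i})`, a function on the covering.

(1) For every algebraic integer `λ` of `K` the `∏_j r_j` classes `{u_0, ..., u_n, z_0, ..., z_s}`,
`u_j = (x_j - φ_{j,k_j + 1}) / (x_j - φ_{j,0})`, `0 ≤ k_j < r_j`, on the hypersurface `W(z) = λ Φ`
over the covering (of dimension `n + 1 + s`) are unramified at all discrete valuations.

(2) For every complex embedding `σ` of `K` there is a constant `C` such that for all `λ ∈ K` with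
`|σ λ| ≥ C` the `∏_j r_j` classes have independent regulators on tori of dimension `n + 1 + s` in the
complex points over `σ`.

(3) For all but finitely many algebraic integers `λ` of `K` the `∏_j r_j` unramified classes have
independent regulators for some `σ`. -/
theorem result.{u, v} (s n : ℕ) (K : Type u) [Field K] [NumberField K] (W : LP K (s + 1))
    (hW : Interior W) (hT : Tame W) (A : Tower K n) (hA : A.Graphs) (hI : A.Integral)
    (p G : (MvPolynomial (Fin (n + 1)) K)[X]) (hC : Covering p G) :
    (∀ lam : K, IsIntegral ℤ lam → UnramifiedClasses.{u, v} W A p G lam) ∧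
    (∀ σ : K →+* ℂ, ∃ C : ℝ, ∀ lam : K, C ≤ ‖σ lam‖ → IndependentRegulators σ W A p G lam) ∧
    {lam : K | IsIntegral ℤ lam ∧
      ¬ ∃ σ : K →+* ℂ, IndependentRegulators σ W A p G lam}.Finite := by
  obtain ⟨hp, hdeg, hpI, hGI, hsep, hcop⟩ := hC
  have h2 : ∀ σ : K →+* ℂ,
      ∃ C : ℝ, ∀ lam : K, C ≤ ‖σ lam‖ → IndependentRegulators σ W A p G lam := by
    intro σ
    obtain ⟨γ, hγ, hdet⟩ := Pool.Agent.L7h9.SU.cov_periods (G := G) σ hA hp hdeg hsep hcop
    obtain ⟨C, -, hC⟩ := Pool.Agent.L7h9.SU.exists_toriS (W := W) σ hW (covConst A p G)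
      (covF A p G) γ hγ (fun k => symb (covU A p G k)) hdet
    exact ⟨C, fun lam hl => hC lam hl⟩
  refine ⟨fun lam hlam L _ F k => ?_, h2, ?_⟩
  · exact Pool.Agent.L7h9.SU.susp_mem_unramified hW hT (covConst A p G) (covF A p G) hlam
      (Pool.Agent.L7h9.SU.cov_tempered hA hI hp hpI hGI k) F
  · choose C hC using h2
    refine (finite_bounded K C).subset ?_
    rintro lam ⟨hl1, hl2⟩
    refine ⟨hl1, fun σ => ?_⟩
    by_contra hcon
    push Not at hcon
    exact hl2 ⟨σ, hC σ lam hcon⟩

end Pool.Agent.Results.MP_4a177b_nt.FibrationsOverFunctionFields
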