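import Pool.Agent.L7h9.FR.Lin
import Pool.Agent.L7h9.FR.Unr
import Pool.Agent.L7h9.TS.Smo
set_option autoImplicit false

/-!
Surjectivity of the regulator on the integral `K_2` of curves of genus three over real quadratic
fields, and many independent classes for a series of curves. Let `λ_0, ..., λ_m` be units of a number
field `K`, and let `C` be the curve with the function field `K(w, t_1, ..., t_m)`,
`t_i ^ 2 (λ_0 ^ 2 w ^ 2 + 4) = λ_i ^ 2 w ^ 2 + 4`, `t_0 = 1`, of genus `1 + 2 ^ (m - 1) (m - 1)`. The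
`m (m + 1)` classes `{(x_ij - 1) / (x_ij + 1), x_ji}`, `x_ij = λ_j w t_i / (2 t_j)`, `i ≠ j`, are
unramified everywhere. If no `λ_i / λ_j` is a root of unity, then the regulators of these classes for
the units `λ_i ^ N`, `N` large, are linearly independent. For `m = 2` and real quadratic fields the
number `6` of the classes is the dimension of the target of the regulator, which is therefore
surjective.
-/

namespace Pool.Agent.Results.MP_4a177b_nt.FullRankCurves

open Pool.Agent.TH826.MK (KQ Unramified Torus)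

open Pool.Agent.L7h9.FR (CR Gn Pr cst gx cl)

section defs

variable {K : Type*} [Field K] {m : ℕ}

/-- `a` is a unit of the ring of integers. -/
def IntegralUnit (a : Kˣ) : Prop := IsIntegral ℤ (a : K) ∧ IsIntegral ℤ ((a⁻¹ : Kˣ) : K)

/-- The classes `{(x_ij - 1) / (x_ij + 1), x_ji}`, `i ≠ j`, have unramified images in `K_2 ⊗ ℚ` of
all fields `L` with a homomorphism from the coordinate ring to `L` (for example of the function
fields of the components of the curve). -/
def UnramifiedClasses.{u, v} {K : Type u} [Field K] [CharZero K] {m : ℕ}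
    (lam : Fin (m + 1) → Kˣ) : Prop :=
  ∀ (L : Type v) [Field L] (f : CR lam →+* L) (p : Pr m), KQ.map 2 f (cl lam p) ∈ Unramified L 2

/-- The element `λ_0 ^ 2 w ^ 2 + 4` is a unit of the coordinate ring, so that the equations
`t_i ^ 2 = (λ_i ^ 2 w ^ 2 + 4) / (λ_0 ^ 2 w ^ 2 + 4)` with the units `t_i` are étale over the
`w`-line. -/
def Etale (lam : Fin (m + 1) → Kˣ) : Prop :=
  IsUnit (cst lam (lam 0 : K) ^ 2 * gx lam Gn.w ^ 2 + 4)

/-- There are `m (m + 1)` loops, each in the complex points over some complex embedding `σ` of `K`,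
such that the determinant of the regulators of the `m (m + 1)` classes on the loops does not
vanish. -/
def IndependentRegulators [CharZero K] (lam : Fin (m + 1) → Kˣ) : Prop :=
  ∃ Γ : Pr m → Torus (CR lam) 1,
    (∀ t, ∃ σ : K →+* ℂ, ∀ θ x, (Γ t).e θ (cst lam x) = σ x) ∧
    (Matrix.of fun t q => (Γ t).reg (cl lam q)).det ≠ 0

end defs

/-- Let `K` be a number field and `m ≥ 1`. For units `λ_0, ..., λ_m` of `K` let `CR` be the ring
`K[w, 1 / w, t_i, 1 / t_i, 1 / (x_ij ^ 2 - 1)]` with the relations `t_0 = 1` and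
`t_i ^ 2 (λ_0 ^ 2 w ^ 2 + 4) = λ_i ^ 2 w ^ 2 + 4`, where `x_ij = λ_j w t_i / (2 t_j)`, `i ≠ j`: the
coordinate ring of an open part of a curve, and consider the `m (m + 1)` classes
`{(x_ij - 1) / (x_ij + 1), x_ji}`, `i ≠ j`, in `K_2 ⊗ ℚ` of this ring.

* If the `λ_i` are units of the ring of integers, all classes have unramified images in `K_2 ⊗ ℚ` of
  every field `L` with a homomorphism from the coordinate ring to `L`.
* If no `λ_i / λ_j`, `i ≠ j`, is a root of unity, then the open part of the curve is étale over the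
  `w`-line.
* If the `λ_i` are units of the ring of integers, and no `λ_i / λ_j`, `i ≠ j`, is a root of unity,
  then for all large `N` there are `m (m + 1)` loops in the complex points of the curve with the units
  `λ_0 ^ N, ..., λ_m ^ N`, each over some complex embedding of `K`, such that the determinant of the
  regulators of the `m (m + 1)` classes on the loops does not vanish.

The complete curve has genus `1 + 2 ^ (m - 1) (m - 1)`. For `m = 2` its genus is `3`; if `K` is a
real quadratic field (and, for example, `λ_i = e ^ (n_i)` with a unit `e ≠ ± 1` and different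
integers `n_i`), then the number `6` of the classes is `3 [K : ℚ]`, the dimension of the target
`H^1(C(ℂ), ℝ(1))^+` of the regulator, and so the regulator `K_2(C)_ℤ ⊗ ℝ → H^1(C(ℂ), ℝ(1))^+` is
surjective. -/
theorem result.{u, v} (K : Type u) [Field K] [NumberField K] (m : ℕ) (hm : 1 ≤ m) :
    (∀ lam : Fin (m + 1) → Kˣ, (∀ i, IntegralUnit (lam i)) → UnramifiedClasses.{u, v} lam) ∧
    (∀ lam : Fin (m + 1) → Kˣ, (∀ i j, i ≠ j → ∀ k : ℕ, k ≠ 0 → (lam i / lam j) ^ k ≠ 1) →
      Etale lam) ∧
    (∀ lam : Fin (m + 1) → Kˣ, (∀ i, IntegralUnit (lam i)) →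
      (∀ i j, i ≠ j → ∀ k : ℕ, k ≠ 0 → (lam i / lam j) ^ k ≠ 1) →
      ∃ N₀ : ℕ, ∀ N ≥ N₀, IndependentRegulators fun i => lam i ^ N) := by
  refine ⟨fun lam h L _ f p => Pool.Agent.L7h9.FR.cl_unramified (fun i => (h i).1)
    (fun i => (h i).2) f p, fun lam h => ?_, fun lam h h' => ?_⟩
  · have hne : (⟨1, by omega⟩ : Fin (m + 1)) ≠ 0 := fun h0 => by
      have := congrArg Fin.val h0
      simp at this
    have h1 := h ⟨1, by omega⟩ 0 hne 2 two_ne_zero
    set i : Fin (m + 1) := ⟨1, by omega⟩
    have h2 : (lam i : K) ^ 2 - (lam 0 : K) ^ 2 ≠ 0 := by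
      intro h0
      apply h1
      rw [div_pow, div_eq_one]
      apply Units.ext
      rw [Units.val_pow_eq_pow_val, Units.val_pow_eq_pow_val]
      exact sub_eq_zero.1 h0
    have h3 := Pool.Agent.L7h9.FR.mk_rel lam (Pool.Agent.L7h9.FR.Rl.sq i)
    unfold Pool.Agent.L7h9.FR.rel at h3
    have h4 : Pool.Agent.L7h9.FR.mk lam 4 = 4 := map_ofNat _ 4
    simp only [map_sub, map_mul, map_add, map_pow, h4] at h3
    have h5 : (gx lam (Gn.t i) ^ 2 - 1) *
        (cst lam (lam 0 : K) ^ 2 * gx lam Gn.w ^ 2 + 4) =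
        cst lam ((lam i : K) ^ 2 - (lam 0 : K) ^ 2) * gx lam Gn.w ^ 2 := by
      rw [map_sub, map_pow, map_pow]
      have h6 : gx lam (Gn.t i) ^ 2 * (cst lam (lam 0 : K) ^ 2 * gx lam Gn.w ^ 2 + 4) -
          (cst lam (lam i : K) ^ 2 * gx lam Gn.w ^ 2 + 4) = 0 := h3
      linear_combination h6
    have h7 : IsUnit (cst lam ((lam i : K) ^ 2 - (lam 0 : K) ^ 2) * gx lam Gn.w ^ 2) :=
      ((isUnit_iff_ne_zero.2 h2).map (cst lam)).mul
        ((Pool.Agent.L7h9.FR.uw lam).isUnit.pow 2)
    exact isUnit_of_dvd_unit (Dvd.intro_left _ h5) h7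
  · obtain ⟨N₀, hN₀⟩ := Pool.Agent.L7h9.FR.exists_loops (lam := lam) (fun i j hij => by
      obtain ⟨σ, -, hσ, -⟩ := Pool.Agent.L7h9.TS.exists_places (e := lam j / lam i)
        (by
          rw [div_eq_mul_inv, Units.val_mul]
          exact (h j).1.mul (h i).2)
        (by
          rw [inv_div, div_eq_mul_inv, Units.val_mul]
          exact (h i).1.mul (h j).2)
        (h' j i hij.symm)
      refine ⟨σ, ?_⟩
      rw [Units.val_div_eq_div_val, map_div₀, norm_div, one_lt_div] at hσ
      · exact hσ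
      · exact norm_pos_iff.2 ((map_ne_zero σ).2 (lam i).ne_zero))
    exact ⟨N₀, fun N hN => hN₀ N hN⟩

end Pool.Agent.Results.MP_4a177b_nt.FullRankCurves
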