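import Pool.Agent.L7h9.SU.Fin
set_option autoImplicit false

/-!
A suspension principle for Beilinson's conjecture on `K_j^{(j)}`: tempered classes
`β_1, ..., β_N ∈ K_n(A) ⊗ ℚ` on an ARBITRARY base `Spec A` over a number field `K`, whose
differential forms `dlog β_k` have independent periods on tori of dimension `n`, give for all but
finitely many algebraic integers `λ` of `K` the `N` classes `β_k · {z_0, ..., z_s}` on the fibration
`W(z_0, ..., z_s) = λ f` over the base, which are unramified at all discrete valuations, also at
those over the primes of `K`, and have independent regulators.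
-/

namespace Pool.Agent.Results.MP_4a177b_nt.SuspensionPrinciple

open Pool.Agent.TH826.MK (KQ symb Unramified Torus)

open Pool.Agent.N65.TL (LP Interior Tame)

open Pool.Agent.L7h9.LT (lval lder)

open Pool.Agent.L7h9.SU (SRing sbase sz cat Tempered byTwo)

section defs

variable {K A : Type*} [Field K] [CommRing A] {s n N : ℕ}

/-- The class `β · {z_0, ..., z_s}` on the hypersurface `W(z) = λ f`, of degree `n + s + 1`. -/
noncomputable def susp (ι : K →+* A) (W : LP K (s + 1)) (f : Aˣ) (lam : K) (β : KQ A n) :
    KQ (SRing ι W (ι lam * f)) (n + (s + 1)) :=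
  cat (sbase ι W (ι lam * f)) (sz ι W (ι lam * f)) β

/-- The classes `β_k · {z_0, ..., z_s}` have unramified images in `K_{n+s+1} ⊗ ℚ` of all fields `L`
with a homomorphism from the coordinate ring of the hypersurface `W(z) = λ f` to `L` (for example of
the function fields of its components). -/
def UnramifiedSuspensions.{u, w, v} {K : Type u} {A : Type w} [Field K] [CommRing A] {s n N : ℕ}
    (ι : K →+* A) (W : LP K (s + 1)) (f : Aˣ) (lam : K) (β : Fin N → KQ A n) : Prop :=
  ∀ (L : Type v) [Field L] (F : SRing ι W (ι lam * f) →+* L) (k : Fin N),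
    KQ.map _ F (susp ι W f lam (β k)) ∈ Unramified L _

/-- There are `N` tori `γ_t` of dimension `n` in the complex points of `A` over `σ`, such that the
determinant of the matrix of the numbers `reg(β_k · {2})(γ_t) = ± log 2 · ∫_{γ_t} dlog β_k` (up to the
factor `(2πi)^n`) does not vanish. -/
def IndependentPeriods [CharZero K] (σ : K →+* ℂ) (ι : K →+* A) (β : Fin N → KQ A n) : Prop :=
  ∃ γ : Fin N → Torus A n, (∀ t θ x, (γ t).e θ (ι x) = σ x) ∧
    (Matrix.of fun t k => (γ t).reg (byTwo ι (β k))).det ≠ 0

/-- There are `N` tori `Γ_t` of dimension `n + s` in the complex points over `σ` of the hypersurface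
`W(z) = λ f`, in the locus where some derivative of `W(z)` with respect to `z_0, ..., z_s` is not zero
(where the hypersurface is smooth over the base), such that the determinant of the regulators of the
classes `β_k · {z_0, ..., z_s}` on the tori does not vanish. -/
def IndependentRegulators (σ : K →+* ℂ) (ι : K →+* A) (W : LP K (s + 1)) (f : Aˣ) (lam : K)
    (β : Fin N → KQ A n) : Prop :=
  ∃ Γ : Fin N → Torus (SRing ι W (ι lam * f)) (n + s),
    (∀ t θ x, (Γ t).e θ (sbase ι W (ι lam * f) (ι x)) = σ x) ∧
    (∀ t θ, ∃ i, lder σ W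
      (fun j => (Γ t).e θ (sz ι W (ι lam * f) j : SRing ι W (ι lam * f))) i ≠ 0) ∧
    (Matrix.of fun t k => (Γ t).reg (susp ι W f lam (β k))).det ≠ 0

end defs

theorem finite_bounded (K : Type*) [Field K] [NumberField K] (C : (K →+* ℂ) → ℝ) :
    {lam : K | IsIntegral ℤ lam ∧ ∀ σ : K →+* ℂ, ‖σ lam‖ < C σ}.Finite := by
  classical
  obtain ⟨B, hB⟩ : ∃ B : ℝ, ∀ σ : K →+* ℂ, C σ ≤ B := by
    refine ⟨∑ σ : K →+* ℂ, |C σ|, fun σ => (le_abs_self _).trans ?_⟩
    exact Finset.single_le_sum (f := fun σ : K →+* ℂ => |C σ|) (fun _ _ => abs_nonneg _)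
      (Finset.mem_univ σ)
  refine (NumberField.Embeddings.finite_of_norm_le K ℂ B).subset ?_
  rintro lam ⟨h1, h2⟩
  exact ⟨h1, fun σ => (h2 σ).le.trans (hB σ)⟩

/-- SUSPENSION PRINCIPLE. Let `K` be a number field and `A` an arbitrary `K`-algebra (`ι : K → A`), a
ring of functions on the base. Let `f` be a unit of `A`, and let `β_1, ..., β_N` be classes in
`K_n(A) ⊗ ℚ` (Milnor K-theory) which are tempered with respect to `f`: for every discrete valuation
`v` of a field `L` and every homomorphism `φ : A → L` the class `φ β_k` is unramified at `v` if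
`v(φ f) = 1`, and specializes to zero at `v` if `φ f` has a pole at `v` (no condition at the zeros of
`f`). Let `W` be a Laurent polynomial in `z_0, ..., z_s` over `K` such that the origin is an interior
point of the Newton polytope (`Interior`) and `W` divides, with an integral quotient, a product of
polynomials of simplex type (`Tame`).

(1) For every algebraic integer `λ` of `K` the `N` classes `β_k · {z_0, ..., z_s}` of degree
`n + s + 1` on the hypersurface `W(z) = λ f`, `z_i ≠ 0`, over the base are unramified (at all discrete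
valuations, also those over the primes of `K`).

(2) Let `σ` be a complex embedding of `K`. If the `N` classes `β_k` have independent periods on `N`
tori of dimension `n` in the complex points of the base over `σ`, then there is a constant `C` such
that for all `λ ∈ K` with `|σ λ| ≥ C` the `N` classes `β_k · {z_0, ..., z_s}` have independent
regulators on `N` tori of dimension `n + s` in the complex points of the hypersurface over `σ`.

(3) If the classes `β_k` have independent periods for every `σ`, then for all but finitely many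
algebraic integers `λ` of `K` the regulators of the `N` unramified classes are independent for some
`σ`. -/
theorem result.{u, w, v} (K : Type u) [Field K] [NumberField K] (A : Type w) [CommRing A]
    (ι : K →+* A) (s n N : ℕ) (W : LP K (s + 1)) (hW : Interior W) (hT : Tame W) (f : Aˣ)
    (β : Fin N → KQ A n) (hβ : ∀ k, Tempered.{w, v} f (β k)) :
    (∀ lam : K, IsIntegral ℤ lam → UnramifiedSuspensions.{u, w, v} ι W f lam β) ∧
    (∀ σ : K →+* ℂ, IndependentPeriods σ ι β →
      ∃ C : ℝ, ∀ lam : K, C ≤ ‖σ lam‖ → IndependentRegulators σ ι W f lam β) ∧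
    ((∀ σ : K →+* ℂ, IndependentPeriods σ ι β) →
      {lam : K | IsIntegral ℤ lam ∧
        ¬ ∃ σ : K →+* ℂ, IndependentRegulators σ ι W f lam β}.Finite) := by
  have h2 : ∀ σ : K →+* ℂ, IndependentPeriods σ ι β →
      ∃ C : ℝ, ∀ lam : K, C ≤ ‖σ lam‖ → IndependentRegulators σ ι W f lam β := by
    rintro σ ⟨γ, hγ, hdet⟩
    obtain ⟨C, -, hC⟩ := Pool.Agent.L7h9.SU.exists_toriS (W := W) σ hW ι f γ hγ β hdet
    exact ⟨C, fun lam hl => hC lam hl⟩
  refine ⟨fun lam hlam L _ F k => ?_, h2, fun h => ?_⟩
  · exact Pool.Agent.L7h9.SU.susp_mem_unramified hW hT ι f hlam (hβ k) F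
  · choose C hC using fun σ : K →+* ℂ => h2 σ (h σ)
    refine (finite_bounded K C).subset ?_
    rintro lam ⟨hl1, hl2⟩
    refine ⟨hl1, fun σ => ?_⟩
    by_contra hcon
    push Not at hcon
    exact hl2 ⟨σ, hC σ lam hcon⟩

end Pool.Agent.Results.MP_4a177b_nt.SuspensionPrinciple
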